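import Pool.Agent.W2helper59.CW.Stm

set_option autoImplicit false

namespace Pool.Agent.W2helper63.CW

open MeasureTheory Set
open Pool.Agent.W2helper59.CW

/-- vectors with the order type of `r` -/
def OT {l : ℕ} {β : Type*} [LT β] (r : Fin l → β) : Set (Fin l → ℝ) :=
  {v | ∀ i j : Fin l, v i < v j ↔ r i < r j}

theorem measSet_OT {l : ℕ} {β : Type*} [LT β] (r : Fin l → β) : MeasurableSet (OT r) := by
  have : OT r = ⋂ i : Fin l, ⋂ j : Fin l, {v : Fin l → ℝ | v i < v j ↔ r i < r j} := by
    ext v; simp [OT]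
  rw [this]
  refine MeasurableSet.iInter fun i => MeasurableSet.iInter fun j => ?_
  by_cases h : r i < r j
  · simp only [h, iff_true]
    exact measurableSet_lt (measurable_pi_apply i) (measurable_pi_apply j)
  · simp only [h, iff_false, not_lt]
    exact measurableSet_le (measurable_pi_apply j) (measurable_pi_apply i)

/-- the equality of two coordinates is null -/
theorem null_eq {l : ℕ} {i j : Fin l} (h : i ≠ j) : mu l {v | v i = v j} = 0 := by
  have h1 : mu l = (volume : Measure (Fin l → ℝ)).restrict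
      (Set.univ.pi fun _ => Icc (0 : ℝ) 1) := by
    rw [mu, volume_pi, Measure.restrict_pi_pi]
  rw [h1]
  refine le_antisymm ((Measure.restrict_apply_le _ _).trans ?_) (zero_le)
  let f : (Fin l → ℝ) →ₗ[ℝ] ℝ := (LinearMap.proj (R := ℝ) (φ := fun _ : Fin l => ℝ) i) -
    (LinearMap.proj (R := ℝ) (φ := fun _ : Fin l => ℝ) j)
  have h2 : {v : Fin l → ℝ | v i = v j} = (LinearMap.ker f : Set (Fin l → ℝ)) := by
    ext v
    simp [f, sub_eq_zero]
  rw [h2, Measure.addHaar_submodule]
  intro h3
  have h4 : f (Pi.single i 1) = 0 := by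
    have : (Pi.single i 1 : Fin l → ℝ) ∈ LinearMap.ker f := by rw [h3]; trivial
    simpa using this
  simp [f, Pi.single_apply, h.symm] at h4

theorem null_inj {l : ℕ} : mu l {v | ¬ Function.Injective v} = 0 := by
  have h1 : {v : Fin l → ℝ | ¬ Function.Injective v} ⊆
      ⋃ i : Fin l, ⋃ j : Fin l, ⋃ (_ : i ≠ j), {v : Fin l → ℝ | v i = v j} := by
    intro v hv
    simp only [Function.Injective, not_forall, mem_ofPred_eq] at hv
    obtain ⟨i, j, h1, h2⟩ := hv
    simp only [mem_iUnion]
    exact ⟨i, j, h2, h1⟩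
  refine measure_mono_null h1 ?_
  simp only [measure_iUnion_null_iff]
  intro i j h
  exact null_eq h

/-- the symmetry -/
theorem perm_meas {l : ℕ} (e : Equiv.Perm (Fin l)) (s : Set (Fin l → ℝ)) :
    mu l {v | (fun i => v (e.symm i)) ∈ s} = mu l s := by
  have h1 := measurePreserving_piCongrLeft (ι := Fin l) (ι' := Fin l) (α := fun _ => ℝ)
    (fun _ => (volume : Measure ℝ).restrict (Icc (0 : ℝ) 1)) e
  have h2 := h1.measure_preimage_equiv s
  rw [← mu] at h2
  rw [← h2]
  have h3 : ∀ v : Fin l → ℝ, (MeasurableEquiv.piCongrLeft (fun _ : Fin l => ℝ) e) v =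
      fun i => v (e.symm i) := by
    intro v
    funext i
    obtain ⟨j, rfl⟩ := e.surjective i
    rw [MeasurableEquiv.piCongrLeft_apply_apply]
    simp
  have h4 : {v : Fin l → ℝ | (fun i => v (e.symm i)) ∈ s} =
      ⇑(MeasurableEquiv.piCongrLeft (fun _ : Fin l => ℝ) e) ⁻¹' s := by
    ext v
    rw [mem_preimage, h3 v]
    rfl
  rw [h4]

/-- Main counting lemma: `c` is a monotone function of `r` and, on the box, of `v`. -/
theorem box_count {l : ℕ} {β : Type*} [LinearOrder β] (r : Fin l → β)
    (hr : Function.Injective r) (c : Fin l → Fin 3)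
    (hc : ∀ i j, r i ≤ r j → c i ≤ c j) (I : Fin 3 → Set ℝ) (hI : ∀ a, MeasurableSet (I a))
    (hI2 : ∀ a b : Fin 3, ∀ s ∈ I a, ∀ t ∈ I b, s ≤ t → a ≤ b) :
    mu l {v | ∀ j, v j ∈ I (c j)} =
      (Fintype.card {e : Equiv.Perm (Fin l) // c ∘ e = c}) *
        mu l ({v | ∀ j, v j ∈ I (c j)} ∩ OT r) := by
  classical
  set B : Set (Fin l → ℝ) := {v | ∀ j, v j ∈ I (c j)} with hB
  have hBm : MeasurableSet B := by
    have : B = ⋂ j : Fin l, {v : Fin l → ℝ | v j ∈ I (c j)} := by
      ext v; simp [hB]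
    rw [this]
    exact MeasurableSet.iInter fun j => (hI (c j)).preimage (measurable_pi_apply j)
  -- the union
  let U : Set (Fin l → ℝ) := ⋃ e : {e : Equiv.Perm (Fin l) // c ∘ e = c},
    (B ∩ OT (r ∘ e.1))
  have hU1 : U ⊆ B := by
    intro v hv
    obtain ⟨e, he⟩ := mem_iUnion.1 hv
    exact he.1
  have hU2 : B \ U ⊆ {v | ¬ Function.Injective v} := by
    rintro v ⟨hv1, hv2⟩ hinj
    apply hv2
    have hsv : StrictMono (v ∘ Tuple.sort v) :=
      (Tuple.monotone_sort v).strictMono_of_injective (hinj.comp (Tuple.sort v).injective)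
    have hsr : StrictMono (r ∘ Tuple.sort r) :=
      (Tuple.monotone_sort r).strictMono_of_injective (hr.comp (Tuple.sort r).injective)
    have hcv : Monotone (c ∘ Tuple.sort v) := by
      intro i j hij
      exact hI2 _ _ _ (hv1 _) _ (hv1 _) (hsv.monotone hij)
    have hcr : Monotone (c ∘ Tuple.sort r) := by
      intro i j hij
      exact hc _ _ (hsr.monotone hij)
    have hcc : c ∘ Tuple.sort r = c ∘ Tuple.sort v := Tuple.unique_monotone hcr hcv
    let e : Equiv.Perm (Fin l) := (Tuple.sort v).symm.trans (Tuple.sort r)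
    have he : c ∘ e = c := by
      funext i
      have := congrFun hcc ((Tuple.sort v).symm i)
      simpa [e] using this
    refine mem_iUnion.2 ⟨⟨e, he⟩, hv1, ?_⟩
    intro i j
    obtain ⟨i, rfl⟩ := (Tuple.sort v).surjective i
    obtain ⟨j, rfl⟩ := (Tuple.sort v).surjective j
    have h1 := hsv.lt_iff_lt (a := i) (b := j)
    have h2 := hsr.lt_iff_lt (a := i) (b := j)
    simp only [Function.comp] at h1 h2
    simp only [Function.comp, e, Equiv.trans_apply, Equiv.symm_apply_apply]
    rw [h1, h2]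
  have hU3 : mu l U = mu l B := by
    refine le_antisymm (measure_mono hU1) ?_
    calc mu l B ≤ mu l (U ∪ (B \ U)) := measure_mono (by
          intro v hv
          by_cases h : v ∈ U
          · exact Or.inl h
          · exact Or.inr ⟨hv, h⟩)
      _ ≤ mu l U + mu l (B \ U) := measure_union_le _ _
      _ = mu l U := by rw [measure_mono_null hU2 null_inj, add_zero]
  rw [← hU3]
  have hdis : Pairwise (Function.onFun Disjoint
      (fun e : {e : Equiv.Perm (Fin l) // c ∘ e = c} => B ∩ OT (r ∘ e.1))) := by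
    intro e e' hee
    rw [Function.onFun, Set.disjoint_left]
    rintro v ⟨_, h1⟩ ⟨_, h2⟩
    apply hee
    apply Subtype.ext
    have hinj : Function.Injective v := by
      intro i j hij
      have h3 := h1 i j
      have h4 := h1 j i
      rw [hij] at h3 h4
      simp only [lt_irrefl, false_iff, not_lt] at h3 h4
      exact e.1.injective (hr (le_antisymm h4 h3))
    have hsv : StrictMono (v ∘ Tuple.sort v) :=
      (Tuple.monotone_sort v).strictMono_of_injective (hinj.comp (Tuple.sort v).injective)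
    have h5 : StrictMono (r ∘ ((Tuple.sort v).trans e.1)) := by
      intro i j hij
      exact (h1 _ _).1 (hsv hij)
    have h6 : StrictMono (r ∘ ((Tuple.sort v).trans e'.1)) := by
      intro i j hij
      exact (h2 _ _).1 (hsv hij)
    have h7 := Tuple.unique_monotone h5.monotone h6.monotone
    ext i
    have h8 := congrFun h7 ((Tuple.sort v).symm i)
    simp only [Function.comp, Equiv.trans_apply, Equiv.apply_symm_apply] at h8
    exact congrArg Fin.val (hr h8)
  rw [measure_iUnion hdis (fun e => hBm.inter (measSet_OT _))]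
  have hsym : ∀ e : {e : Equiv.Perm (Fin l) // c ∘ e = c},
      mu l (B ∩ OT (r ∘ e.1)) = mu l (B ∩ OT r) := by
    intro e
    rw [← perm_meas e.1 (B ∩ OT r)]
    congr 1
    ext v
    have hce : ∀ i, c (e.1 i) = c i := fun i => congrFun e.2 i
    constructor
    · rintro ⟨h1, h2⟩
      refine ⟨fun j => ?_, fun i j => ?_⟩
      · have := h1 (e.1.symm j)
        rw [← hce, Equiv.apply_symm_apply] at this
        exact this
      · have := h2 (e.1.symm i) (e.1.symm j)
        simpa [Function.comp] using this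
    · rintro ⟨h1, h2⟩
      refine ⟨fun j => ?_, fun i j => ?_⟩
      · have := h1 (e.1 j)
        simp only [Equiv.symm_apply_apply, hce] at this
        exact this
      · have := h2 (e.1 i) (e.1 j)
        simp only [Equiv.symm_apply_apply] at this
        exact this
  simp_rw [hsym]
  rw [tsum_fintype, Finset.sum_const, Finset.card_univ, nsmul_eq_mul]

/-- the inner positions of a pattern -/
def inn {l : ℕ} (j : Fin l) : Fin (l + 2) := Fin.succ (Fin.castSucc j)

theorem inn_inj {l : ℕ} : Function.Injective (inn : Fin l → Fin (l + 2)) := by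
  intro i j h
  exact Fin.castSucc_injective _ (Fin.succ_injective _ h)

theorem inn_ne_zero {l : ℕ} (j : Fin l) : inn j ≠ 0 := Fin.succ_ne_zero _

theorem inn_ne_last {l : ℕ} (j : Fin l) : inn j ≠ Fin.last (l + 1) := by
  intro h
  have := congrArg Fin.val h
  simp [inn] at this
  omega

theorem inn_surj {l : ℕ} (a : Fin (l + 2)) (h0 : a ≠ 0) (h1 : a ≠ Fin.last (l + 1)) :
    ∃ j : Fin l, inn j = a := by
  obtain ⟨b, rfl⟩ := Fin.exists_succ_eq.2 h0
  have hb : b ≠ Fin.last l := by
    rintro rfl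
    exact h1 (Fin.succ_last l)
  obtain ⟨j, rfl⟩ := Fin.exists_castSucc_eq.2 hb
  exact ⟨j, rfl⟩

theorem card_col {l : ℕ} (p : Equiv.Perm (Fin (l + 2))) (S : Finset (Fin (l + 2)))
    (h0 : p 0 ∉ S) (h1 : p (Fin.last (l + 1)) ∉ S) :
    (Finset.univ.filter (fun j : Fin l => p (inn j) ∈ S)).card = S.card := by
  classical
  have : (Finset.univ.filter (fun j : Fin l => p (inn j) ∈ S)).image (fun j => p (inn j)) = S := by
    ext a
    simp only [Finset.mem_image, Finset.mem_filter, Finset.mem_univ, true_and]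
    constructor
    · rintro ⟨j, hj, rfl⟩
      exact hj
    · intro ha
      obtain ⟨j, hj⟩ := inn_surj (p.symm a)
        (by rintro h; apply h0; rw [← h]; simpa using ha)
        (by rintro h; apply h1; rw [← h]; simpa using ha)
      exact ⟨j, by rw [hj]; simpa using ha, by rw [hj]; simp⟩
  rw [← Finset.card_image_of_injective _ (p.injective.comp inn_inj)]
  exact congrArg Finset.card this

/-- the colour of an inner position -/
def col {l : ℕ} (p : Equiv.Perm (Fin (l + 2))) (j : Fin l) : Fin 3 :=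
  if p (inn j) < p 0 then 0 else if p (inn j) < p (Fin.last (l + 1)) then 1 else 2

theorem w0 {l : ℕ} (x y : ℝ) (v : Fin l → ℝ) :
    (Fin.cons x (Fin.snoc v y : Fin (l + 1) → ℝ) : Fin (l + 2) → ℝ) 0 = x := rfl

theorem wlast {l : ℕ} (x y : ℝ) (v : Fin l → ℝ) :
    (Fin.cons x (Fin.snoc v y : Fin (l + 1) → ℝ) : Fin (l + 2) → ℝ) (Fin.last (l + 1)) = y := by
  rw [← Fin.succ_last, Fin.cons_succ, Fin.snoc_last]

theorem winn {l : ℕ} (x y : ℝ) (v : Fin l → ℝ) (j : Fin l) :
    (Fin.cons x (Fin.snoc v y : Fin (l + 1) → ℝ) : Fin (l + 2) → ℝ) (inn j) = v j := by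
  rw [inn, Fin.cons_succ, Fin.snoc_castSucc]

/-- the intervals -/
def Iv (x y : ℝ) (a : Fin 3) : Set ℝ :=
  if a = 0 then Iio x else if a = 1 then Ioo x y else Ioi y

theorem iv_cases {l : ℕ} (p : Equiv.Perm (Fin (l + 2))) (hp : p 0 < p (Fin.last (l + 1)))
    (x y : ℝ) (j : Fin l) (t : ℝ) :
    t ∈ Iv x y (col p j) ↔ (p (inn j) < p 0 ∧ t < x) ∨
      ((p 0 < p (inn j) ∧ p (inn j) < p (Fin.last (l + 1))) ∧ x < t ∧ t < y) ∨
      (p (Fin.last (l + 1)) < p (inn j) ∧ y < t) := by
  have hne0 : p (inn j) ≠ p 0 := fun h => inn_ne_zero j (p.injective h)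
  have hnel : p (inn j) ≠ p (Fin.last (l + 1)) := fun h => inn_ne_last j (p.injective h)
  rcases lt_trichotomy (p (inn j)) (p 0) with c | c | c
  · have e : col p j = 0 := by simp [col, c]
    have e2 : Iv x y 0 = Iio x := by simp [Iv]
    have n1 : ¬ p 0 < p (inn j) := not_lt.2 c.le
    have n2 : ¬ p (Fin.last (l + 1)) < p (inn j) := not_lt.2 (c.trans hp).le
    rw [e, e2]
    simp [c, n1, n2]
  · exact absurd c hne0
  · rcases lt_trichotomy (p (inn j)) (p (Fin.last (l + 1))) with d | d | d
    · have n1 : ¬ p (inn j) < p 0 := not_lt.2 c.le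
      have n2 : ¬ p (Fin.last (l + 1)) < p (inn j) := not_lt.2 d.le
      have e : col p j = 1 := by simp [col, n1, d]
      have e2 : Iv x y 1 = Ioo x y := by simp [Iv]
      rw [e, e2]
      simp [c, d, n1, n2]
    · exact absurd d hnel
    · have n1 : ¬ p (inn j) < p 0 := not_lt.2 c.le
      have n2 : ¬ p (inn j) < p (Fin.last (l + 1)) := not_lt.2 d.le
      have e : col p j = 2 := by simp [col, n1, n2]
      have e2 : Iv x y 2 = Ioi y := by simp [Iv]
      rw [e, e2]
      simp [c, d, n1, n2]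

theorem event_eq {l : ℕ} (p : Equiv.Perm (Fin (l + 2))) (hp : p 0 < p (Fin.last (l + 1)))
    (x y : ℝ) (hxy : x < y) :
    {v : Fin l → ℝ | ∀ a b : Fin (l + 2),
        ((Fin.cons x (Fin.snoc v y : Fin (l + 1) → ℝ) : Fin (l + 2) → ℝ) a <
          (Fin.cons x (Fin.snoc v y : Fin (l + 1) → ℝ) : Fin (l + 2) → ℝ) b ↔ p a < p b)} =
      {v | ∀ j, v j ∈ Iv x y (col p j)} ∩ OT (fun j => p (inn j)) := by
  ext v
  have hne0 : ∀ j : Fin l, p (inn j) ≠ p 0 := fun j h => inn_ne_zero j (p.injective h)
  have hnel : ∀ j : Fin l, p (inn j) ≠ p (Fin.last (l + 1)) :=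
    fun j h => inn_ne_last j (p.injective h)
  constructor
  · intro h
    have h' : ∀ a b : Fin (l + 2),
        ((Fin.cons x (Fin.snoc v y : Fin (l + 1) → ℝ) : Fin (l + 2) → ℝ) a <
          (Fin.cons x (Fin.snoc v y : Fin (l + 1) → ℝ) : Fin (l + 2) → ℝ) b ↔ p a < p b) := h
    refine ⟨fun j => ?_, fun i j => ?_⟩
    · have h1 := h' (inn j) 0
      have h2 := h' 0 (inn j)
      have h3 := h' (inn j) (Fin.last (l + 1))
      have h4 := h' (Fin.last (l + 1)) (inn j)
      rw [winn, w0] at h1 h2
      rw [winn, wlast] at h3 h4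
      rw [iv_cases p hp]
      rcases lt_trichotomy (p (inn j)) (p 0) with c | c | c
      · exact Or.inl ⟨c, h1.2 c⟩
      · exact absurd c (hne0 j)
      · rcases lt_trichotomy (p (inn j)) (p (Fin.last (l + 1))) with d | d | d
        · exact Or.inr (Or.inl ⟨⟨c, d⟩, h2.2 c, h3.2 d⟩)
        · exact absurd d (hnel j)
        · exact Or.inr (Or.inr ⟨d, h4.2 d⟩)
    · have h1 := h' (inn i) (inn j)
      rw [winn, winn] at h1
      exact h1
  · rintro ⟨h1, h2⟩
    have h1' := fun j => (iv_cases p hp x y j (v j)).1 (h1 j)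
    have hlt0 : ∀ j, v j < x ↔ p (inn j) < p 0 := by
      intro j
      rcases h1' j with ⟨c, d⟩ | ⟨⟨c, c'⟩, d, d'⟩ | ⟨c, d⟩
      · exact iff_of_true d c
      · exact iff_of_false d.not_gt c.not_gt
      · exact iff_of_false (hxy.trans d).not_gt (hp.trans c).not_gt
    have hgt0 : ∀ j, x < v j ↔ p 0 < p (inn j) := by
      intro j
      rcases h1' j with ⟨c, d⟩ | ⟨⟨c, c'⟩, d, d'⟩ | ⟨c, d⟩
      · exact iff_of_false d.not_gt c.not_gt
      · exact iff_of_true d c
      · exact iff_of_true (hxy.trans d) (hp.trans c)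
    have hltl : ∀ j, v j < y ↔ p (inn j) < p (Fin.last (l + 1)) := by
      intro j
      rcases h1' j with ⟨c, d⟩ | ⟨⟨c, c'⟩, d, d'⟩ | ⟨c, d⟩
      · exact iff_of_true (d.trans hxy) (c.trans hp)
      · exact iff_of_true d' c'
      · exact iff_of_false d.not_gt c.not_gt
    have hgtl : ∀ j, y < v j ↔ p (Fin.last (l + 1)) < p (inn j) := by
      intro j
      rcases h1' j with ⟨c, d⟩ | ⟨⟨c, c'⟩, d, d'⟩ | ⟨c, d⟩
      · exact iff_of_false (d.trans hxy).not_gt (c.trans hp).not_gt
      · exact iff_of_false d'.not_gt c'.not_gt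
      · exact iff_of_true d c
    intro a b
    by_cases ha0 : a = 0
    · subst ha0
      by_cases hb0 : b = 0
      · subst hb0; simp
      · by_cases hb1 : b = Fin.last (l + 1)
        · subst hb1
          rw [w0, wlast]
          exact iff_of_true hxy hp
        · obtain ⟨j, rfl⟩ := inn_surj b hb0 hb1
          rw [w0, winn]
          exact hgt0 j
    · by_cases ha1 : a = Fin.last (l + 1)
      · subst ha1
        by_cases hb0 : b = 0
        · subst hb0
          rw [w0, wlast]
          exact iff_of_false hxy.not_gt hp.not_gt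
        · by_cases hb1 : b = Fin.last (l + 1)
          · subst hb1; simp
          · obtain ⟨j, rfl⟩ := inn_surj b hb0 hb1
            rw [wlast, winn]
            exact hgtl j
      · obtain ⟨i, rfl⟩ := inn_surj a ha0 ha1
        by_cases hb0 : b = 0
        · subst hb0
          rw [w0, winn]
          exact hlt0 i
        · by_cases hb1 : b = Fin.last (l + 1)
          · subst hb1
            rw [wlast, winn]
            exact hltl i
          · obtain ⟨j, rfl⟩ := inn_surj b hb0 hb1
            rw [winn, winn]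
            exact h2 i j

/-- the measure of the box -/
theorem box_meas {l : ℕ} (p : Equiv.Perm (Fin (l + 2))) (x y : ℝ) (hx : x ∈ Icc (0 : ℝ) 1)
    (hy : y ∈ Icc (0 : ℝ) 1) :
    mu l {v | ∀ j, v j ∈ Iv x y (col p j)} =
      ENNReal.ofReal x ^ (Finset.univ.filter (fun j : Fin l => col p j = 0)).card *
      ENNReal.ofReal (y - x) ^ (Finset.univ.filter (fun j : Fin l => col p j = 1)).card *
      ENNReal.ofReal (1 - y) ^ (Finset.univ.filter (fun j : Fin l => col p j = 2)).card := by
  have h1 : {v : Fin l → ℝ | ∀ j, v j ∈ Iv x y (col p j)} =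
      Set.univ.pi (fun j => Iv x y (col p j)) := by
    ext v; simp
  rw [h1, mu, Measure.pi_pi]
  rw [← Finset.prod_fiberwise' Finset.univ (fun j : Fin l => col p j)
    (fun a => ((volume : Measure ℝ).restrict (Icc (0 : ℝ) 1)) (Iv x y a))]
  rw [Fin.prod_univ_three]
  simp only [Finset.prod_const]
  have e0 : ((volume : Measure ℝ).restrict (Icc (0 : ℝ) 1)) (Iv x y 0) = ENNReal.ofReal x := by
    have e : Iv x y 0 = Iio x := by simp [Iv]
    rw [e, Measure.restrict_apply measurableSet_Iio]
    have : Iio x ∩ Icc (0 : ℝ) 1 = Ico 0 x := by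
      ext t; simp only [mem_inter_iff, mem_Iio, mem_Icc, mem_Ico]
      constructor
      · rintro ⟨a, b, c⟩; exact ⟨b, a⟩
      · rintro ⟨a, b⟩; exact ⟨b, a, (b.trans_le hx.2).le⟩
    rw [this, Real.volume_Ico, sub_zero]
  have e1 : ((volume : Measure ℝ).restrict (Icc (0 : ℝ) 1)) (Iv x y 1) =
      ENNReal.ofReal (y - x) := by
    have e : Iv x y 1 = Ioo x y := by simp [Iv]
    rw [e, Measure.restrict_apply measurableSet_Ioo]
    have : Ioo x y ∩ Icc (0 : ℝ) 1 = Ioo x y := by
      ext t; simp only [mem_inter_iff, mem_Ioo, mem_Icc]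
      constructor
      · rintro ⟨a, b⟩; exact a
      · rintro ⟨a, b⟩; exact ⟨⟨a, b⟩, (hx.1.trans_lt a).le, (b.trans_le hy.2).le⟩
    rw [this, Real.volume_Ioo]
  have e2 : ((volume : Measure ℝ).restrict (Icc (0 : ℝ) 1)) (Iv x y 2) =
      ENNReal.ofReal (1 - y) := by
    have e : Iv x y 2 = Ioi y := by simp [Iv]
    rw [e, Measure.restrict_apply measurableSet_Ioi]
    have : Ioi y ∩ Icc (0 : ℝ) 1 = Ioc y 1 := by
      ext t; simp only [mem_inter_iff, mem_Ioi, mem_Icc, mem_Ioc]
      constructor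
      · rintro ⟨a, b, c⟩; exact ⟨a, c⟩
      · rintro ⟨a, b⟩; exact ⟨a, (hy.1.trans_lt a).le, b⟩
    rw [this, Real.volume_Ioc]
  rw [e0, e1, e2]

theorem col_mono {l : ℕ} (p : Equiv.Perm (Fin (l + 2))) (i j : Fin l)
    (h : p (inn i) ≤ p (inn j)) : col p i ≤ col p j := by
  unfold col
  split_ifs with c1 c2 c3 c4 c5 c6 <;> first | decide | (exfalso; omega)

theorem iv_meas (x y : ℝ) (a : Fin 3) : MeasurableSet (Iv x y a) := by
  unfold Iv
  split_ifs
  · exact measurableSet_Iio
  · exact measurableSet_Ioo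
  · exact measurableSet_Ioi

theorem iv_mono (x y : ℝ) (hxy : x < y) (a b : Fin 3) (s : ℝ) (hs : s ∈ Iv x y a) (t : ℝ)
    (ht : t ∈ Iv x y b) (hst : s ≤ t) : a ≤ b := by
  by_contra hab
  have hab' : b < a := not_le.1 hab
  have e0 : Iv x y 0 = Iio x := by simp [Iv]
  have e1 : Iv x y 1 = Ioo x y := by simp [Iv]
  have e2 : Iv x y 2 = Ioi y := by simp [Iv]
  fin_cases a <;> fin_cases b <;> simp at hab' <;> simp only [Fin.reduceFinMk, Fin.mk_one, Fin.zero_eta, e0, e1, e2, mem_Iio, mem_Ioo, mem_Ioi, Fin.isValue] at hs ht <;>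
    linarith [hs, ht]

theorem p_kap : P_KAP := by
  classical
  intro l p hp x hx y hy
  split_ifs with hxy
  · rw [event_eq p hp x y hxy]
    have h1 := box_count (fun j => p (inn j)) (p.injective.comp inn_inj) (col p) (col_mono p)
      (Iv x y) (iv_meas x y) (fun a b s hs t ht hst => iv_mono x y hxy a b s hs t ht hst)
    have h2 := box_meas p x y hx hy
    have hst := DomMulAct.stabilizer_card (col p)
    rw [Fin.prod_univ_three] at hst
    have c0 : (Finset.univ.filter (fun j : Fin l => col p j = 0)).card = (p 0 : ℕ) := by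
      rw [← Fin.card_Iio (p 0), ← card_col p (Finset.Iio (p 0)) (by simp) (by simp [hp.le])]
      congr 1
      ext j
      simp only [Finset.mem_filter, Finset.mem_univ, true_and, Finset.mem_Iio, col]
      split_ifs <;> simp_all
    have c1 : (Finset.univ.filter (fun j : Fin l => col p j = 1)).card =
        (p (Fin.last (l + 1)) : ℕ) - (p 0 : ℕ) - 1 := by
      rw [← Fin.card_Ioo (p 0) (p (Fin.last (l + 1))),
        ← card_col p (Finset.Ioo (p 0) (p (Fin.last (l + 1)))) (by simp) (by simp)]
      congr 1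
      ext j
      have hne0 : p (inn j) ≠ p 0 := fun h => inn_ne_zero j (p.injective h)
      simp only [Finset.mem_filter, Finset.mem_univ, true_and, Finset.mem_Ioo, col]
      rcases lt_or_gt_of_ne hne0 with c | c
      · simp [c, c.le]
      · have : ¬ p (inn j) < p 0 := not_lt.2 c.le
        simp only [this, if_false, c, true_and]
        split_ifs <;> simp_all
    have c2 : (Finset.univ.filter (fun j : Fin l => col p j = 2)).card =
        l + 1 - (p (Fin.last (l + 1)) : ℕ) := by
      have : l + 1 - (p (Fin.last (l + 1)) : ℕ) =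
          (Finset.Ioi (p (Fin.last (l + 1)))).card := by
        rw [Fin.card_Ioi]
        omega
      rw [this, ← card_col p (Finset.Ioi (p (Fin.last (l + 1)))) (by simp [hp.le]) (by simp)]
      congr 1
      ext j
      have hnel : p (inn j) ≠ p (Fin.last (l + 1)) := fun h => inn_ne_last j (p.injective h)
      simp only [Finset.mem_filter, Finset.mem_univ, true_and, Finset.mem_Ioi, col]
      rcases lt_or_gt_of_ne hnel with c | c
      · have : ¬ p (Fin.last (l + 1)) < p (inn j) := not_lt.2 c.le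
        simp only [this, c, if_true, iff_false]
        split_ifs <;> simp
      · have h1 : ¬ p (inn j) < p (Fin.last (l + 1)) := not_lt.2 c.le
        have h2 : ¬ p (inn j) < p 0 := not_lt.2 (hp.trans c).le
        simp [h1, h2, c]
    have k0 : Fintype.card {j : Fin l // col p j = 0} = (p 0 : ℕ) := by
      rw [Fintype.card_subtype]; exact c0
    have k1 : Fintype.card {j : Fin l // col p j = 1} =
        (p (Fin.last (l + 1)) : ℕ) - (p 0 : ℕ) - 1 := by
      rw [Fintype.card_subtype]; exact c1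
    have k2 : Fintype.card {j : Fin l // col p j = 2} =
        l + 1 - (p (Fin.last (l + 1)) : ℕ) := by
      rw [Fintype.card_subtype]; exact c2
    rw [c0, c1, c2] at h2
    rw [k0, k1, k2] at hst
    rw [h2, hst] at h1
    generalize hM : mu l ({v | ∀ j, v j ∈ Iv x y (col p j)} ∩ OT (fun j => p (inn j))) = M at h1 ⊢
    generalize (p 0 : ℕ) = al at h1 ⊢
    generalize (p (Fin.last (l + 1)) : ℕ) - al - 1 = de at h1 ⊢
    generalize l + 1 - (p (Fin.last (l + 1)) : ℕ) = ga at h1 ⊢
    have hx0 : 0 ≤ x := hx.1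
    have hyx : 0 ≤ y - x := by linarith
    have h1y : 0 ≤ 1 - y := by linarith [hy.2]
    have hpos : (0 : ℝ) < (al.factorial : ℝ) * de.factorial * ga.factorial := by positivity
    have hN : ENNReal.ofReal ((al.factorial : ℝ) * de.factorial * ga.factorial) =
        ((al.factorial * de.factorial * ga.factorial : ℕ) : ENNReal) := by
      rw [← ENNReal.ofReal_natCast]
      push_cast
      rfl
    have hN0 : al.factorial * de.factorial * ga.factorial ≠ 0 := by positivity
    rw [ENNReal.ofReal_div_of_pos hpos, hN, ENNReal.ofReal_mul (by positivity),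
      ENNReal.ofReal_mul (by positivity), ENNReal.ofReal_pow hx0, ENNReal.ofReal_pow hyx,
      ENNReal.ofReal_pow h1y, h1]
    rw [ENNReal.eq_div_iff (by exact_mod_cast hN0) (ENNReal.natCast_ne_top _)]
  · have : {v : Fin l → ℝ | ∀ a b : Fin (l + 2),
        ((Fin.cons x (Fin.snoc v y : Fin (l + 1) → ℝ) : Fin (l + 2) → ℝ) a <
          (Fin.cons x (Fin.snoc v y : Fin (l + 1) → ℝ) : Fin (l + 2) → ℝ) b ↔ p a < p b)} = ∅ := by
      ext v
      simp only [mem_empty_iff_false, iff_false]
      intro h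
      have h' : ∀ a b : Fin (l + 2),
        ((Fin.cons x (Fin.snoc v y : Fin (l + 1) → ℝ) : Fin (l + 2) → ℝ) a <
          (Fin.cons x (Fin.snoc v y : Fin (l + 1) → ℝ) : Fin (l + 2) → ℝ) b ↔ p a < p b) := h
      have h1 := h' 0 (Fin.last (l + 1))
      rw [w0, wlast] at h1
      exact hxy (h1.2 hp)
    rw [this]
    simp

end Pool.Agent.W2helper63.CW
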